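import Mathlib
import Pool.Agent.H26.Link1

set_option autoImplicit false

open Pool.Agent.H26.Link

namespace Pool.Agent.Results.MP_035205_an.Counterexample

theorem result : ∃ (M : HM) (F : Sub M) (P : M.E → M.E),
    Tern F ∧ IdemOnto F P ∧ (∀ x, ‖P x‖ ≤ ‖x‖) ∧ ¬ Extends F P :=
  ⟨M0, F0, P0, tern0, idem0, norm0, not_ext P0⟩

end Pool.Agent.Results.MP_035205_an.Counterexample
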